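import Mathlib
import Pool.Agent.K1H34.UNI.Stm2

set_option autoImplicit false

/-!
# The choice of the parameters: proof of `S_NUM`
-/

namespace Pool.Agent.K1H65.UN

open Finset Filter Real

/-- polynomials are smaller than exponentials -/
theorem ev_pow (k : ℕ) (C : ℝ) {e : ℝ} (he : 0 < e) :
    ∀ᶠ y : ℝ in atTop, C * y ^ k ≤ Real.exp (e * y) := by
  have h := (isLittleO_pow_exp_pos_mul_atTop (k := k) he).bound
    (show (0 : ℝ) < 1 / (|C| + 1) by positivity)
  filter_upwards [h, eventually_ge_atTop 0] with y hy hy0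
  rw [Real.norm_of_nonneg (pow_nonneg hy0 k), Real.norm_of_nonneg (Real.exp_pos _).le] at hy
  have h1 : C * y ^ k ≤ (|C| + 1) * y ^ k :=
    mul_le_mul_of_nonneg_right (by linarith [le_abs_self C]) (pow_nonneg hy0 k)
  have h2 : (|C| + 1) * y ^ k ≤ (|C| + 1) * (1 / (|C| + 1) * Real.exp (e * y)) :=
    mul_le_mul_of_nonneg_left hy (by positivity)
  have h3 : (|C| + 1) * (1 / (|C| + 1) * Real.exp (e * y)) = Real.exp (e * y) := by
    field_simp
  linarith

/-- `C y exp(-e y) ≤ 1` eventually -/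
theorem ev_one (k : ℕ) (C : ℝ) {e : ℝ} (he : 0 < e) :
    ∀ᶠ y : ℝ in atTop, C * y ^ k * Real.exp (-(e * y)) ≤ 1 := by
  filter_upwards [ev_pow k C he] with y hy
  calc C * y ^ k * Real.exp (-(e * y)) ≤ Real.exp (e * y) * Real.exp (-(e * y)) :=
        mul_le_mul_of_nonneg_right hy (Real.exp_pos _).le
    _ = 1 := by rw [← Real.exp_add, add_neg_cancel, Real.exp_zero]

/-- the count of patterns is beaten by the exponential -/
theorem last {y : ℝ} (hy : 1 ≤ y) (S : ℕ) (hS : (S : ℝ) ≤ Real.exp (y / 10) + 1)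
    (e1 : 200 * y ≤ Real.exp (2 / 5 * y)) :
    4 * exp (-((exp y / 2 - exp (-1) * exp y) / exp (y / 2))) *
        ((⌊exp y⌋₊ + 1) ^ (2 * (2 * S + 2)) : ℕ) ≤ 1 := by
  have h1 : exp (-1 : ℝ) ≤ 0.37 := by
    have := Real.exp_neg_one_lt_d9
    linarith
  have h2 : 0.13 * exp (y / 2) ≤ (exp y / 2 - exp (-1) * exp y) / exp (y / 2) := by
    rw [le_div_iff₀ (exp_pos _)]
    have h3 : exp (y / 2) * exp (y / 2) = exp y := by
      rw [← exp_add]; ring_nf
    have h4 : 0 < exp y := exp_pos _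
    rw [mul_assoc, h3]
    nlinarith
  have h3 : exp (-((exp y / 2 - exp (-1) * exp y) / exp (y / 2))) ≤ exp (-(0.13 * exp (y / 2))) := by
    rw [exp_le_exp]; linarith
  have h4 : ((⌊exp y⌋₊ : ℝ) + 1) ≤ exp (y + 1) := by
    have h5 : (⌊exp y⌋₊ : ℝ) ≤ exp y := Nat.floor_le (exp_pos _).le
    have h6 : 1 ≤ exp y := Real.one_le_exp (by linarith)
    have h7 : (2 : ℝ) ≤ exp 1 := by linarith [Real.add_one_le_exp (1 : ℝ)]
    rw [exp_add]
    nlinarith
  have h5 : (((⌊exp y⌋₊ + 1) ^ (2 * (2 * S + 2)) : ℕ) : ℝ) ≤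
      exp ((y + 1) * (4 * exp (y / 10) + 8)) := by
    push_cast
    calc ((⌊exp y⌋₊ : ℝ) + 1) ^ (2 * (2 * S + 2)) ≤ exp (y + 1) ^ (2 * (2 * S + 2)) :=
          pow_le_pow_left₀ (by positivity) h4 _
      _ = exp (((2 * (2 * S + 2) : ℕ) : ℝ) * (y + 1)) := by rw [exp_nat_mul]
      _ ≤ _ := by
          rw [exp_le_exp]
          push_cast
          nlinarith
  have h6 : (4 : ℝ) ≤ exp 2 := by
    have h7 : (2 : ℝ) ≤ exp 1 := by linarith [Real.add_one_le_exp (1 : ℝ)]
    have h8 : exp (2 : ℝ) = exp 1 * exp 1 := by rw [← exp_add]; norm_num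
    rw [h8]; nlinarith
  have h7 : 2 + (y + 1) * (4 * exp (y / 10) + 8) ≤ 0.13 * exp (y / 2) := by
    have h8 : exp (y / 2) = exp (y / 10) * exp (2 / 5 * y) := by
      rw [← exp_add]; ring_nf
    have h9 : 1 ≤ exp (y / 10) := Real.one_le_exp (by positivity)
    have h10 : exp (y / 10) * (200 * y) ≤ exp (y / 10) * exp (2 / 5 * y) :=
      mul_le_mul_of_nonneg_left e1 (exp_pos _).le
    rw [h8]
    have h11 : (y + 1) * (4 * exp (y / 10) + 8) ≤ (2 * y) * (12 * exp (y / 10)) :=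
      mul_le_mul (by linarith) (by linarith) (by positivity) (by positivity)
    nlinarith
  calc 4 * exp (-((exp y / 2 - exp (-1) * exp y) / exp (y / 2))) *
        ((⌊exp y⌋₊ + 1) ^ (2 * (2 * S + 2)) : ℕ) ≤
        exp 2 * exp (-(0.13 * exp (y / 2))) * exp ((y + 1) * (4 * exp (y / 10) + 8)) := by
        refine mul_le_mul (mul_le_mul h6 h3 (exp_pos _).le (exp_pos _).le) h5 (by positivity)
          (by positivity)
    _ = exp (2 + (y + 1) * (4 * exp (y / 10) + 8) - 0.13 * exp (y / 2)) := by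
        rw [← exp_add, ← exp_add]; ring_nf
    _ ≤ 1 := by
        rw [Real.exp_le_one_iff]; linarith

open Pool.Agent.K1H34.UNI in
/-- the parameters can be chosen, if the degree `exp y` is large -/
theorem t_NUM : S_NUM := by
  intro t s ht
  have htr : (1 : ℝ) ≤ t := by exact_mod_cast ht
  obtain ⟨e, he⟩ : ∃ e : ℝ, e = 1 / (100 * (t : ℝ) ^ 2) := ⟨_, rfl⟩
  have he0 : 0 < e := by rw [he]; positivity
  have het : e * (t : ℝ) ^ 2 = 1 / 100 := by rw [he]; field_simp
  have he1 : e ≤ 1 / 100 := by nlinarith [mul_pos he0 (show (0 : ℝ) < t by linarith)]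
  have het1 : e * t ≤ 1 / 100 := by nlinarith [mul_pos he0 (show (0 : ℝ) < t by linarith)]
  have a1 := ev_one 1 1 (show (0 : ℝ) < 3 / 4 by norm_num)
  have a2 := ev_one 1 1 (show (0 : ℝ) < 9 / 100 by norm_num)
  have a3 := ev_one 0 (8 * ((s : ℝ) + t ^ 2)) (show (0 : ℝ) < 18 / 100 by norm_num)
  have a4 := ev_one 1 2 he0
  have a5 := ev_one 1 2 (show (0 : ℝ) < 2 / 100 by norm_num)
  have a6 := ev_one 0 400 he0
  have a7 := ev_one 1 100 (show (0 : ℝ) < 1 / 4 by norm_num)
  have a8 := ev_one 0 100 (show (0 : ℝ) < 1 / 2 by norm_num)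
  have a9 := ev_pow 1 200 (show (0 : ℝ) < 2 / 5 by norm_num)
  obtain ⟨y0, hy0⟩ := Filter.eventually_atTop.1 (a1.and (a2.and (a3.and (a4.and (a5.and (a6.and
    (a7.and (a8.and a9))))))))
  refine ⟨max y0 1, le_max_right _ _, fun y hy => ?_⟩
  obtain ⟨a1, a2, a3, a4, a5, a6, a7, a8, a9⟩ := hy0 y ((le_max_left _ _).trans hy)
  clear hy0
  have y1 : 1 ≤ y := (le_max_right _ _).trans hy
  have yp : 0 < y := by linarith
  simp only [pow_zero, mul_one, pow_one, one_mul] at a1 a2 a3 a4 a5 a6 a7 a8 a9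
  -- the integer `S`
  obtain ⟨S, hS⟩ : ∃ S : ℕ, S = ⌈exp (y / 10)⌉₊ := ⟨_, rfl⟩
  have hS1 : exp (y / 10) ≤ S := by rw [hS]; exact Nat.le_ceil _
  have hS2 : (S : ℝ) ≤ exp (y / 10) + 1 := by rw [hS]; exact (Nat.ceil_lt_add_one (exp_pos _).le).le
  have hS0 : (0 : ℝ) < S := lt_of_lt_of_le (exp_pos _) hS1
  have hSone : (1 : ℝ) ≤ S := (Real.one_le_exp (by positivity)).trans hS1
  obtain ⟨T, hT⟩ : ∃ T : ℝ, T = 1 / 100 * y * exp (-y) := ⟨_, rfl⟩
  have hT0 : 0 < T := by rw [hT]; positivity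
  obtain ⟨q, hq⟩ : ∃ q : ℝ, q = T / S := ⟨_, rfl⟩
  have hq0 : 0 < q := by rw [hq]; positivity
  have hqS : q * S = T := by rw [hq]; field_simp
  have hqT : q ≤ T := by nlinarith
  obtain ⟨E, hE⟩ : ∃ E : ℝ, E = exp ((1 + e) * y) := ⟨_, rfl⟩
  have hE0 : 0 < E := by rw [hE]; exact exp_pos _
  obtain ⟨M, hM⟩ : ∃ M : ℝ, M = exp (y / 4) := ⟨_, rfl⟩
  have hM0 : 0 < M := by rw [hM]; exact exp_pos _
  have hMph : exp (4 * (y / 16)) = M := by rw [hM]; ring_nf
  have h2eh : 2 * (E / 2) = E := by ring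
  -- `T M`
  have hTM : T * M = 1 / 100 * (y * exp (-(3 / 4 * y))) := by
    have : exp (-(3 / 4 * y)) = exp (-y) * exp (y / 4) := by rw [← exp_add]; ring_nf
    rw [hT, hM, this]; ring
  have hTM1 : T * M ≤ 1 / 100 := by rw [hTM]; linarith
  -- `q E`
  have hqE : q * E ≤ 1 / 100 := by
    have h1 : E = exp y * exp (e * y) := by rw [hE, ← exp_add]; ring_nf
    have h2 : T * exp y = 1 / 100 * y := by
      rw [hT, mul_assoc, ← exp_add, neg_add_cancel, exp_zero, mul_one]
    have h3 : q * E * S = 1 / 100 * y * exp (e * y) := by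
      calc q * E * S = (q * S) * E := by ring
        _ = T * exp y * exp (e * y) := by rw [hqS, h1]; ring
        _ = _ := by rw [h2]
    have h4 : exp (e * y) ≤ exp (1 / 100 * y) := by
      rw [exp_le_exp]; exact mul_le_mul_of_nonneg_right he1 yp.le
    have h5 : exp (1 / 100 * y) = exp (-(9 / 100 * y)) * exp (y / 10) := by
      rw [← exp_add]; ring_nf
    have h6 : 1 / 100 * y * exp (e * y) ≤ 1 / 100 * exp (y / 10) := by
      calc 1 / 100 * y * exp (e * y) ≤ 1 / 100 * y * (exp (-(9 / 100 * y)) * exp (y / 10)) := by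
            rw [← h5]; exact mul_le_mul_of_nonneg_left h4 (by positivity)
        _ = 1 / 100 * ((y * exp (-(9 / 100 * y))) * exp (y / 10)) := by ring
        _ ≤ 1 / 100 * (1 * exp (y / 10)) := by
            refine mul_le_mul_of_nonneg_left ?_ (by norm_num)
            exact mul_le_mul_of_nonneg_right a2 (exp_pos _).le
        _ = _ := by ring
    have h7 : q * E * S ≤ 1 / 100 * S := by rw [h3]; linarith
    exact le_of_mul_le_mul_right h7 hS0
  have hexpE : exp y * exp (e * y) = E := by rw [hE, ← exp_add]; ring_nf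
  have hyE : exp y ≤ E := by
    rw [← hexpE]
    have : 1 ≤ exp (e * y) := Real.one_le_exp (by positivity)
    nlinarith [exp_pos y]
  -- `Theta`
  obtain ⟨κ, hκ⟩ : ∃ κ : ℝ, κ = exp (-(3 * e * y)) := ⟨_, rfl⟩
  have hκ0 : 0 < κ := by rw [hκ]; exact exp_pos _
  obtain ⟨h, hh⟩ : ∃ h : ℝ, h = S * exp ((2 * t - 1 / 20) * y) := ⟨_, rfl⟩
  have hh0 : 0 < h := by rw [hh]; positivity
  obtain ⟨Θ, hΘ⟩ : ∃ Θ : ℝ, Θ = κ * E ^ 2 * S + h / (E ^ (2 * t - 2) * κ ^ t ^ 2) := ⟨_, rfl⟩
  have hcast : ((2 * t - 2 : ℕ) : ℝ) = 2 * t - 2 := by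
    rw [Nat.cast_sub (by omega)]; push_cast; ring
  have hcast1 : ((2 * t - 1 : ℕ) : ℝ) = 2 * t - 1 := by
    rw [Nat.cast_sub (by omega)]; push_cast; ring
  have hΘ1 : κ * E ^ 2 * S = S * exp ((2 - e) * y) := by
    rw [hκ, hE, ← exp_nat_mul, ← exp_add, mul_comm]
    congr 2
    push_cast
    ring
  have hΘ2 : h / (E ^ (2 * t - 2) * κ ^ t ^ 2) ≤ S * exp ((2 - 2 / 100) * y) := by
    rw [div_le_iff₀ (by positivity), hh, mul_assoc]
    refine mul_le_mul_of_nonneg_left ?_ hS0.le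
    rw [hκ, hE, ← exp_nat_mul, ← exp_nat_mul, ← exp_add, ← exp_add, exp_le_exp, hcast]
    push_cast
    have h1 : (2 - 2 / 100) * y + ((2 * t - 2) * ((1 + e) * y) + (t : ℝ) ^ 2 * -(3 * e * y)) =
        (2 * t - 1 / 20) * y + (3 / 100 - 3 * (e * (t : ℝ) ^ 2)) * y +
          ((2 * t - 2) * e) * y := by ring
    rw [h1, het]
    have h2 : 0 ≤ ((2 * t - 2) * e) * y := by
      have : 0 ≤ (2 * (t : ℝ) - 2) := by linarith
      positivity
    linarith
  have hΘ0 : 0 < Θ := by rw [hΘ]; positivity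
  have hqΘ : 2 * (q * Θ) ≤ 2 * (1 / 100) * exp y := by
    have h1 : Θ ≤ S * (exp ((2 - e) * y) + exp ((2 - 2 / 100) * y)) := by
      rw [hΘ, mul_add]; linarith
    have h2 : q * Θ ≤ T * (exp ((2 - e) * y) + exp ((2 - 2 / 100) * y)) := by
      rw [← hqS, mul_assoc]
      exact mul_le_mul_of_nonneg_left h1 hq0.le
    have h3 : T * (exp ((2 - e) * y) + exp ((2 - 2 / 100) * y)) =
        1 / 200 * ((2 * y * exp (-(e * y))) + (2 * y * exp (-(2 / 100 * y)))) * exp y := by
      have h4 : exp ((2 - e) * y) = exp (-(e * y)) * exp y * exp y := by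
        rw [← exp_add, ← exp_add]; ring_nf
      have h5 : exp ((2 - 2 / 100) * y) = exp (-(2 / 100 * y)) * exp y * exp y := by
        rw [← exp_add, ← exp_add]; ring_nf
      have h6 : exp (-y) * exp y = 1 := by rw [← exp_add, neg_add_cancel, exp_zero]
      rw [hT, h4, h5]
      calc 1 / 100 * y * exp (-y) * (exp (-(e * y)) * exp y * exp y +
            exp (-(2 / 100 * y)) * exp y * exp y) =
            1 / 100 * y * (exp (-y) * exp y) * (exp (-(e * y)) + exp (-(2 / 100 * y))) * exp y := by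
            ring
        _ = _ := by rw [h6]; ring
    have h4 : 1 / 200 * ((2 * y * exp (-(e * y))) + (2 * y * exp (-(2 / 100 * y)))) * exp y ≤
        1 / 200 * (1 + 1) * exp y := by
      refine mul_le_mul_of_nonneg_right ?_ (exp_pos _).le
      refine mul_le_mul_of_nonneg_left ?_ (by norm_num)
      linarith
    rw [h3] at h2
    linarith
  -- `lam`
  obtain ⟨lam, hlam⟩ : ∃ lam : ℝ, lam = 1 - exp y / (E / 2) - q * M * S -
      q * S / (y / 16) * (exp y + 2 * q * Θ) - 2 * q / (E / 2) * Θ := ⟨_, rfl⟩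
  have hyE2 : exp y / (E / 2) ≤ 1 / 200 := by
    rw [div_le_iff₀ (by positivity), ← hexpE]
    have h1 : exp (-(e * y)) * exp (e * y) = 1 := by rw [← exp_add, neg_add_cancel, exp_zero]
    have h2 : 400 ≤ exp (e * y) := by
      have := mul_le_mul_of_nonneg_right a6 (exp_pos (e * y)).le
      rw [mul_assoc, h1] at this
      linarith
    nlinarith [exp_pos y]
  have hlam8 : 8 / 10 ≤ lam := by
    have h1 : q * M * S ≤ 1 / 100 := by
      have : q * M * S = T * M := by rw [← hqS]; ring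
      rw [this]; exact hTM1
    have h2 : q * S / (y / 16) * (exp y + 2 * q * Θ) ≤ 17 / 100 := by
      rw [hqS]
      have h3 : T / (y / 16) = 16 / 100 * exp (-y) := by
        rw [hT]; field_simp
      have h4 : exp (-y) * exp y = 1 := by rw [← exp_add, neg_add_cancel, exp_zero]
      rw [h3]
      calc 16 / 100 * exp (-y) * (exp y + 2 * q * Θ) ≤
            16 / 100 * exp (-y) * (exp y + 2 * (1 / 100) * exp y) := by
            refine mul_le_mul_of_nonneg_left ?_ (by positivity)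
            linarith
        _ = 16 / 100 * (exp (-y) * exp y) * (1 + 2 / 100) := by ring
        _ ≤ _ := by rw [h4]; norm_num
    have h3 : 2 * q / (E / 2) * Θ ≤ 1 / 1000 := by
      have h4 : 2 * q / (E / 2) * Θ = 2 * (q * Θ) / (E / 2) := by ring
      rw [h4]
      calc 2 * (q * Θ) / (E / 2) ≤ (2 * (1 / 100) * exp y) / (E / 2) :=
            div_le_div_of_nonneg_right hqΘ (by positivity)
        _ = 2 / 100 * (exp y / (E / 2)) := by ring
        _ ≤ _ := by linarith
    rw [hlam]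
    linarith
  refine ⟨q, E / 2, y / 16, κ, exp (y / 2), exp (y / 2), h, Θ, lam, 7 / 10 * T, S,
    ⌈2 / (7 / 10 * T)⌉₊, hq0, by positivity, by positivity, hκ0, exp_pos _,
    Real.one_le_exp (by positivity), hh0, by positivity, ?_, ?_, ?_, ?_, ?_, ?_, ?_, ?_, ?_, ?_⟩
  · rw [hMph]
    have := mul_le_mul_of_nonneg_right hqT hM0.le
    linarith
  · rw [h2eh]; linarith
  · rw [h2eh]; exact hyE
  · rw [hMph, h2eh]
    have h1 : exp y / exp (y / 2) = exp (y / 2) := by
      rw [div_eq_iff (exp_pos _).ne', ← exp_add]; ring_nf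
    rw [h1, hh]
    have h2 : 1 ≤ exp (y / 2) := Real.one_le_exp (by positivity)
    have h3 : M * E ^ (2 * t - 1) * exp (y / 2) ≤
        exp ((2 * t - 1 / 20) * y) * exp (-(18 / 100 * y)) := by
      rw [hM, hE, ← exp_nat_mul, ← exp_add, ← exp_add, ← exp_add, exp_le_exp, hcast1]
      have h4 : y / 4 + (2 * (t : ℝ) - 1) * ((1 + e) * y) + y / 2 =
          (2 * t - 1 / 20) * y + -(18 / 100 * y) - (2 / 100 - 2 * (e * t)) * y - e * y := by ring
      rw [h4]
      have h5 : 0 ≤ (2 / 100 - 2 * (e * t)) * y := by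
        have : 0 ≤ 2 / 100 - 2 * (e * t) := by linarith
        positivity
      have h6 : 0 ≤ e * y := by positivity
      linarith
    have hst : (0 : ℝ) ≤ (s : ℝ) + t ^ 2 := by positivity
    calc 4 * ((S : ℝ) * (((s : ℝ) + t ^ 2) * M * E ^ (2 * t - 1))) * (exp (y / 2) + 1) ≤
          4 * (S * (((s : ℝ) + t ^ 2) * M * E ^ (2 * t - 1))) * (2 * exp (y / 2)) := by
          refine mul_le_mul_of_nonneg_left (by linarith) (by positivity)
      _ = S * (8 * ((s : ℝ) + t ^ 2)) * (M * E ^ (2 * t - 1) * exp (y / 2)) := by ring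
      _ ≤ S * (8 * ((s : ℝ) + t ^ 2)) * (exp ((2 * t - 1 / 20) * y) * exp (-(18 / 100 * y))) :=
          mul_le_mul_of_nonneg_left h3 (by positivity)
      _ = S * exp ((2 * t - 1 / 20) * y) * (8 * ((s : ℝ) + t ^ 2) * exp (-(18 / 100 * y))) := by
          ring
      _ ≤ S * exp ((2 * t - 1 / 20) * y) * 1 :=
          mul_le_mul_of_nonneg_left a3 (by positivity)
      _ = _ := by ring
  · rw [h2eh]; exact hΘ
  · rw [hMph]; exact hlam
  · rw [hMph, h2eh, hqS]
    have h1 : exp y / exp (y / 2) = exp (y / 2) := by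
      rw [div_eq_iff (exp_pos _).ne', ← exp_add]; ring_nf
    rw [h1]
    have h2 : 99 / 100 ≤ 1 - 1 / exp (y / 2) := by
      have h3 : 1 / exp (y / 2) = exp (-(1 / 2 * y)) := by
        rw [exp_neg, one_div]; ring_nf
      rw [h3]; linarith
    have h3 : 99 / 100 ≤ 1 - q * E := by linarith
    have h4 : (exp (y / 2) + exp (y / 2)) * (2 * M * T ^ 2) = 4 / 100 * (y * exp (-(1 / 4 * y))) * T := by
      have h5 : exp (y / 2) * M * exp (-y) = exp (-(1 / 4 * y)) := by
        rw [hM, ← exp_add, ← exp_add]; ring_nf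
      calc (exp (y / 2) + exp (y / 2)) * (2 * M * T ^ 2) = 4 * (exp (y / 2) * M * T) * T := by ring
        _ = 4 * (1 / 100 * y * (exp (y / 2) * M * exp (-y))) * T := by
            congr 2
            rw [hT]; ring
        _ = _ := by rw [h5]; ring
    have h5 : (exp (y / 2) + exp (y / 2)) * (2 * M * T ^ 2) ≤ 1 / 1000 * T := by
      rw [h4]
      refine mul_le_mul_of_nonneg_right ?_ hT0.le
      linarith
    have h6 : 99 / 100 * (T * (99 / 100) * (8 / 10)) ≤
        (1 - 1 / exp (y / 2)) * (T * (1 - q * E) * lam) := by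
      refine mul_le_mul h2 ?_ (by positivity) (by linarith)
      refine mul_le_mul ?_ hlam8 (by norm_num) ?_
      · exact mul_le_mul_of_nonneg_left h3 hT0.le
      · exact mul_nonneg hT0.le (by linarith)
    nlinarith
  · have h1 : 2 / (7 / 10 * T) ≤ ⌈2 / (7 / 10 * T)⌉₊ := Nat.le_ceil _
    rwa [div_le_iff₀ (by positivity)] at h1
  · have h1 : (⌈2 / (7 / 10 * T)⌉₊ : ℝ) ≤ 2 / (7 / 10 * T) + 1 :=
      (Nat.ceil_lt_add_one (by positivity)).le
    have h2 : 2 / (7 / 10 * T) = 2000 / 7 * (exp y / y) := by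
      rw [hT, exp_neg]
      field_simp
      norm_num
    have h3 : 1 ≤ exp y / y := by
      rw [le_div_iff₀ yp]
      linarith [Real.add_one_le_exp y]
    have h4 : 600 * exp y / y = 600 * (exp y / y) := by ring
    rw [h4]
    rw [h2] at h1
    rw [h2]
    linarith
  · exact last y1 S hS2 a9

end Pool.Agent.K1H65.UN
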